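import Mathlib
import Pool.Agent.MP_1a6d08_co.und.All

/-!
The class of matroids induced by matroidal families of graphs is cut out by a sequence of decidable
conditions; its complement is recursively enumerable and the class itself is not.
-/

namespace Pool.Agent.Results.MP_1a6d08_co.Characterisation

open Pool.Agent.MP_1a6d08_co

theorem result :
    (∀ (α : Type) (M : Matroid α), M.E.Finite →
      (InClass M ↔ ∀ n : ℕ, 2 * M.E.ncard < n → Fits M n)) ∧
    (∃ F : (List ℕ × List (List ℕ)) × ℕ → Prop, ComputablePred F ∧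
      ∀ (c : List ℕ × List (List ℕ)) (M : Matroid ℕ) (n : ℕ), Codes c M → 0 < n →
        (F (c, n) ↔ Fits M n)) ∧
    (∃ q : List ℕ × List (List ℕ) → Prop, REPred q ∧
      ∀ (c : List ℕ × List (List ℕ)) (M : Matroid ℕ), Codes c M → (q c ↔ ¬InClass M)) ∧
    ∀ p : List ℕ × List (List ℕ) → Prop,
      (∀ (c : List ℕ × List (List ℕ)) (M : Matroid ℕ), Codes c M → (p c ↔ InClass M)) →
        ¬REPred p :=
  ⟨fun _ M hM => Und.charIff M hM, Und.fit.imp fun _ h => ⟨h.1.computablePred, h.2⟩, Und.coRe,
    Und.notRe⟩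

end Pool.Agent.Results.MP_1a6d08_co.Characterisation
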