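import Mathlib
import Pool.Agent.MP_1a6d08_co.Large

/-!
Every finite matroid whose circuits miss few elements is induced by a matroidal family of graphs.
-/

namespace Pool.Agent.Results.MP_1a6d08_co.LargeGirth

open Pool.Agent.MP_1a6d08_co

theorem result {α : Type} (M : Matroid α) (m : ℕ) (hfin : M.E.Finite)
    (hn : 5 * 10 ^ 7 * (m + 1) ^ 2 ≤ M.E.ncard)
    (hg : ∀ C, M.IsCircuit C → M.E.ncard ≤ C.ncard + m) : InClass M :=
  large M hfin hn hg

end Pool.Agent.Results.MP_1a6d08_co.LargeGirth
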