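import Mathlib
import Pool.Agent.MP_1a6d08_co.Suf

/-!
The uniform matroids that are induced by matroidal families of graphs.
-/

namespace Pool.Agent.Results.MP_1a6d08_co.Uniform

open Pool.Agent.MP_1a6d08_co

theorem result {α : Type} (M : Matroid α) (r c : ℕ) (hfin : M.E.Finite)
    (hcard : M.E.ncard = r + c) (hU : ∀ I, M.Indep I ↔ I ⊆ M.E ∧ I.ncard ≤ r) :
    InClass M ↔ r = 0 ∨ c = 0 ∨ r + 2 * c = 2 * c ^ 2 ∨ r = 2 * c ^ 2 ∨ 2 * c ^ 2 + c ≤ r :=
  uniform_iff M hfin hcard fun I hI => (hU I).trans (and_iff_right hI)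

end Pool.Agent.Results.MP_1a6d08_co.Uniform
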